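import Pool.Agent.Q255.CV.E2

/-!
# Large central values are rare in families with a first moment

We consider finite families of forms `f` with Hecke eigenvalues `λ_f(n)`, non-negative values `L_f` and
non-negative weights, one for each large prime `N`, for which two averages are given for `n ≤ N^c`: that of
`λ_f(n)` is `δ_{n=1}` and that of `L_f λ_f(n)` is `2 / √n`, up to `O(N^(-c))`.  We show that the proportion of
the `f` with `L_f > (log N)^(-A)` is at most `(log N)^(-(1/2 - A)^2 / 2 + ε)` for `-1/2 < A < 1/2`.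

The set `H_2^+(N)` of the newforms of weight `2` and prime level `N` with even functional equation is such a
family, with `L_f = L(1/2, f)` (Hecke; Waldspurger and Guo; Petersson formula; twisted first moment: Duke,
Iwaniec-Sarnak, Kowalski-Michel; moments of `L(1, sym² f)`: Cogdell-Michel).  So `p_A(N) → 0` for every
`A < 1/2`, and Q1 of the problem can hold at most for exponents `A ≥ 1/2`.  The bound has the order predicted
by the conjecture of Keating and Snaith (`log L(1/2, f)` is nearly normal with mean `-(1/2) log log N` and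
variance `log log N`).
-/

set_option autoImplicit false

namespace Pool.Agent.Results.MP_cc4f83_nt.LargeValuesAreRare

open Filter Topology

/-- A finite family of forms `f` with weights `ω_f`, Hecke eigenvalues `λ_f(n)`, values `L_f` and numbers
`ℓ_f`.  For `H_2^+(N)`: `ω_f = 1 / (2π⟨f, f⟩)`, `L_f = L(1/2, f)`, `ℓ_f = L(1, sym² f)`. -/
structure Family where
  /-- the forms -/
  Form : Type
  /-- there are finitely many forms -/
  fin : Fintype Form
  /-- the weight `ω_f` -/
  weight : Form → ℝ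
  /-- the Hecke eigenvalue `λ_f(n)` -/
  coeff : Form → ℕ → ℝ
  /-- the value `L_f` -/
  value : Form → ℝ
  /-- the number `ℓ_f` -/
  sym : Form → ℝ

attribute [instance] Family.fin

/-- The Hecke relations (with the exceptional prime `N`), non-negative weights and non-negative values. -/
structure HeckeFamily (N : ℕ) (H : Family) : Prop where
  /-- `ω_f ≥ 0` -/
  weight_nonneg : ∀ f, 0 ≤ H.weight f
  /-- `λ_f(1) = 1` -/
  coeff_one : ∀ f, H.coeff f 1 = 1
  /-- `λ_f(mn) = λ_f(m) λ_f(n)` for coprime `m`, `n` -/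
  coeff_mul : ∀ f m n, Nat.Coprime m n → H.coeff f (m * n) = H.coeff f m * H.coeff f n
  /-- `λ_f(p) λ_f(p^(b+1)) = λ_f(p^(b+2)) + λ_f(p^b)` for the primes `p ≠ N` -/
  coeff_prime : ∀ f p, p.Prime → p ≠ N → ∀ b,
    H.coeff f p * H.coeff f (p ^ (b + 1)) = H.coeff f (p ^ (b + 2)) + H.coeff f (p ^ b)
  /-- `L_f ≥ 0` -/
  value_nonneg : ∀ f, 0 ≤ H.value f

/-- The averages over the family at `N`, with constants `c`, `B` and `M j`. -/
structure HasAverages (c B : ℝ) (M : ℕ → ℝ) (N : ℕ) (H : Family) : Prop where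
  /-- `∑ ω_f λ_f(n) = δ_{n=1} + O(N^(-c))` for `n ≤ N^c` -/
  average_coeff : ∀ n : ℕ, 0 < n → (n : ℝ) ≤ (N : ℝ) ^ c →
    |∑ f, H.weight f * H.coeff f n - if n = 1 then 1 else 0| ≤ B * (N : ℝ) ^ (-c)
  /-- `∑ ω_f L_f λ_f(n) = 2 / √n + O(N^(-c))` for `n ≤ N^c` -/
  average_value : ∀ n : ℕ, 0 < n → (n : ℝ) ≤ (N : ℝ) ^ c →
    |∑ f, H.weight f * H.value f * H.coeff f n - 2 / Real.sqrt n| ≤ B * (N : ℝ) ^ (-c)
  /-- `ℓ_f ≥ 0` -/
  sym_nonneg : ∀ f, 0 ≤ H.sym f
  /-- the weights are at least a constant times `1 / (#H ℓ_f)` -/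
  weight_ge : ∀ f, 1 ≤ B * (Fintype.card H.Form : ℝ) * (H.weight f * H.sym f)
  /-- the moments of `ℓ_f` are bounded -/
  sym_moment : ∀ j : ℕ, ∑ f, H.weight f * H.sym f ^ j ≤ M j

open Classical in
/-- the proportion of the forms with `L_f > t` -/
noncomputable def proportion (H : Family) (t : ℝ) : ℝ :=
  (Fintype.card {f : H.Form // t < H.value f} : ℝ) / Fintype.card H.Form

open Classical in
/-- the sum of the weights of the forms with `L_f > t` -/
noncomputable def harmonicProportion (H : Family) (t : ℝ) : ℝ :=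
  ∑ f : H.Form, if t < H.value f then H.weight f else 0

/-- `N` tends to infinity through the primes -/
def primes : Filter ℕ := atTop ⊓ 𝓟 {N : ℕ | N.Prime}

/-- For all primes `N ≥ N₀` let `H_N` be a finite family of forms with Hecke relations, non-negative values
`L_f` and the averages above.

(1) For every `-1/2 < A < 1/2` and `ε > 0` the proportion of the forms with `L_f > (log N)^(-A)` is at most
`(log N)^(-(1/2 - A)^2 / 2 + ε)` for all large primes `N`, also if the forms are counted with the weights.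

(2) So for `0 < A < 1/2` it tends to `0`.

(3) If for some `A > 0` it is at least `θ > 0` for infinitely many primes `N`, then `A ≥ 1/2`. -/
theorem result (H : ℕ → Family) (c B : ℝ) (M : ℕ → ℝ) (hc : 0 < c) (N₀ : ℕ)
    (hH : ∀ N : ℕ, N₀ ≤ N → N.Prime → HeckeFamily N (H N) ∧ HasAverages c B M N (H N)) :
    (∀ A ε : ℝ, -(1 / 2) < A → A < 1 / 2 → 0 < ε → ∀ᶠ N : ℕ in primes,
      harmonicProportion (H N) ((Real.log N) ^ (-A)) ≤ (Real.log N) ^ (-((1 / 2 - A) ^ 2 / 2) + ε) ∧
      proportion (H N) ((Real.log N) ^ (-A)) ≤ (Real.log N) ^ (-((1 / 2 - A) ^ 2 / 2) + ε)) ∧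
    (∀ A : ℝ, 0 < A → A < 1 / 2 →
      Tendsto (fun N => proportion (H N) ((Real.log N) ^ (-A))) primes (𝓝 0)) ∧
    ∀ A θ : ℝ, 0 < A → 0 < θ → (∃ᶠ N in primes, θ ≤ proportion (H N) ((Real.log N) ^ (-A))) →
      1 / 2 ≤ A := by
  classical
  obtain ⟨C, hC, hlev⟩ := Pool.Agent.Q255.CV.level_bound2
  have hB : 0 ≤ B := by
    obtain ⟨N, hN1, hN2⟩ := Nat.exists_infinite_primes N₀
    have h1 := (hH N hN1 hN2).2.average_coeff 1 one_pos (by
      rw [Nat.cast_one]
      exact Real.one_le_rpow (by exact_mod_cast hN2.one_le) hc.le)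
    have h2 := (abs_nonneg _).trans h1
    have h3 : 0 < (N : ℝ) ^ (-c) := Real.rpow_pos_of_pos (by exact_mod_cast hN2.pos) _
    exact nonneg_of_mul_nonneg_left h2 h3
  have hev : ∀ {P : ℕ → Prop}, (∀ᶠ N in atTop, N.Prime → P N) → ∀ᶠ N in primes, P N := by
    intro P h
    unfold primes
    rw [eventually_inf_principal]
    exact h
  have tlog : Tendsto (fun N : ℕ => Real.log N) primes atTop :=
    (Real.tendsto_log_atTop.comp tendsto_natCast_atTop_atTop).mono_left inf_le_left
  have hmain : ∀ A ε : ℝ, -(1 / 2) < A → A < 1 / 2 → 0 < ε → ∀ᶠ N in primes,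
      harmonicProportion (H N) ((Real.log N) ^ (-A)) ≤
        (Real.log N) ^ (-((1 / 2 - A) ^ 2 / 2) + ε) := by
    intro A ε hA hA2 hε
    have hp := Pool.Agent.Q255.CV.params2 C c B A ε hC hc hB hA hA2 hε
    refine hev ?_
    filter_upwards [hp, eventually_ge_atTop N₀] with N hN hN0 hNp
    obtain ⟨y, K, l, h1, h2, h3, h5, h6, h7, h7', h8⟩ := hN
    obtain ⟨hf, hpub⟩ := hH N hN0 hNp
    have hN0' : (0 : ℝ) < N := by exact_mod_cast hNp.pos
    have hlog : 0 < Real.log N := Real.log_pos (by exact_mod_cast hNp.one_lt)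
    have h9 := hlev (H N).Form (H N).weight (H N).value (H N).coeff N hf.coeff_mul hf.coeff_one
      hf.coeff_prime hf.weight_nonneg hf.value_nonneg ((N : ℝ) ^ c) (B * (N : ℝ) ^ (-c))
      (by positivity) hpub.average_coeff hpub.average_value y h1 l h2 h3 K h5 h6 h7
      ((Real.log N) ^ (-A)) (1 / 2 - A) (1 / 2 - A) (Real.rpow_pos_of_pos hlog _) (by linarith)
      (by linarith) (by linarith) h7'
    unfold harmonicProportion
    rw [← Finset.sum_filter]
    exact h9.trans h8
  have hnn : ∀ᶠ N in primes, HeckeFamily N (H N) ∧ HasAverages c B M N (H N) := by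
    refine hev ?_
    filter_upwards [eventually_ge_atTop N₀] with N hN hNp
    exact hH N hN hNp
  have hnat : ∀ A ε : ℝ, -(1 / 2) < A → A < 1 / 2 → 0 < ε → ∀ᶠ N in primes,
      proportion (H N) ((Real.log N) ^ (-A)) ≤ (Real.log N) ^ (-((1 / 2 - A) ^ 2 / 2) + ε) := by
    intro A ε hA hA2 hε
    obtain ⟨j, hj⟩ := exists_nat_gt (2 / ε)
    have hj' : 2 < ε * j := by
      rw [div_lt_iff₀ hε] at hj
      linarith
    set a2 : ℝ := (1 / 2 - A) ^ 2 / 2 with ha2
    have ha2' : a2 ≤ 1 / 2 := by
      rw [ha2]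
      nlinarith
    have t1 : ∀ᶠ N : ℕ in primes, 2 * B ≤ (Real.log N) ^ (ε / 4) :=
      ((tendsto_rpow_atTop (by positivity : 0 < ε / 4)).comp tlog).eventually_ge_atTop _
    have t2 : ∀ᶠ N : ℕ in primes, 2 * (B * |M (j + 1)|) ≤ (Real.log N) ^ (1 / 2 : ℝ) :=
      ((tendsto_rpow_atTop (by positivity : (0 : ℝ) < 1 / 2)).comp tlog).eventually_ge_atTop _
    filter_upwards [hmain A (ε / 4) hA hA2 (by positivity), hnn, t1, t2,
      tlog.eventually_ge_atTop 1] with N h1 h2 h3 h4 h5
    obtain ⟨hf, hpub⟩ := h2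
    set x : ℝ := Real.log N with hx
    have hx0 : 0 < x := by linarith
    set t : ℝ := x ^ (-A) with ht
    set S : Finset (H N).Form := Finset.univ.filter fun f => t < (H N).value f with hS
    have e1 : harmonicProportion (H N) t = ∑ f ∈ S, (H N).weight f := by
      unfold harmonicProportion
      rw [← Finset.sum_filter]
    have e2 : (Fintype.card {f : (H N).Form // t < (H N).value f} : ℝ) = (S.card : ℝ) := by
      rw [Fintype.card_subtype]
    rw [e1] at h1
    unfold proportion
    rw [e2]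
    have hR : 0 < x ^ (-a2 + ε) := Real.rpow_pos_of_pos hx0 _
    rcases Nat.eq_zero_or_pos (Fintype.card (H N).Form) with h0 | h0
    · rw [h0]
      simp [hR.le]
    · have h0' : (0 : ℝ) < Fintype.card (H N).Form := by exact_mod_cast h0
      have h6 : (S.card : ℝ) ≤ B * (Fintype.card (H N).Form : ℝ) *
          ∑ f ∈ S, (H N).weight f * (H N).sym f := by
        rw [Finset.mul_sum]
        calc (S.card : ℝ) = ∑ _f ∈ S, (1 : ℝ) := by simp
          _ ≤ _ := Finset.sum_le_sum fun f _ => hpub.weight_ge f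
      set m : ℝ := x ^ (ε / 2) with hm
      have hm0 : 0 < m := Real.rpow_pos_of_pos hx0 _
      have hpt : ∀ s : ℝ, 0 ≤ s → s ≤ m + s ^ (j + 1) / m ^ j := by
        intro s hs
        rcases le_total s m with h | h
        · have : 0 ≤ s ^ (j + 1) / m ^ j := by positivity
          linarith
        · have h7 : s ≤ s ^ (j + 1) / m ^ j := by
            rw [le_div_iff₀ (by positivity), pow_succ, mul_comm]
            exact mul_le_mul_of_nonneg_right (pow_le_pow_left₀ hm0.le h j) hs
          linarith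
      have h8 : ∑ f ∈ S, (H N).weight f * (H N).sym f ≤
          m * x ^ (-a2 + ε / 4) + |M (j + 1)| / m ^ j := by
        calc ∑ f ∈ S, (H N).weight f * (H N).sym f
            ≤ ∑ f ∈ S, (m * (H N).weight f + (H N).weight f * (H N).sym f ^ (j + 1) / m ^ j) := by
              refine Finset.sum_le_sum fun f _ => ?_
              have := mul_le_mul_of_nonneg_left (hpt _ (hpub.sym_nonneg f)) (hf.weight_nonneg f)
              calc (H N).weight f * (H N).sym f ≤ _ := this
                _ = _ := by ring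
          _ = m * ∑ f ∈ S, (H N).weight f +
              (∑ f ∈ S, (H N).weight f * (H N).sym f ^ (j + 1)) / m ^ j := by
              rw [Finset.sum_add_distrib, Finset.mul_sum, Finset.sum_div]
          _ ≤ _ := by
              refine add_le_add (mul_le_mul_of_nonneg_left h1 hm0.le) ?_
              refine div_le_div_of_nonneg_right ?_ (by positivity)
              refine le_trans (Finset.sum_le_sum_of_subset_of_nonneg (Finset.filter_subset _ _)
                fun f _ _ => mul_nonneg (hf.weight_nonneg f) (pow_nonneg (hpub.sym_nonneg f) _)) ?_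
              exact (hpub.sym_moment (j + 1)).trans (le_abs_self _)
      have h9 : m * x ^ (-a2 + ε / 4) = x ^ (-a2 + ε) / x ^ (ε / 4) := by
        rw [hm, ← Real.rpow_add hx0, ← Real.rpow_sub hx0]
        ring_nf
      have h10 : 1 / m ^ j ≤ x ^ (-a2 + ε) / x ^ (1 / 2 : ℝ) := by
        rw [hm, ← Real.rpow_natCast, ← Real.rpow_mul hx0.le, ← Real.rpow_sub hx0, one_div,
          ← Real.rpow_neg hx0.le]
        refine Real.rpow_le_rpow_of_exponent_le h5 ?_
        linarith
      have h11 : B * (m * x ^ (-a2 + ε / 4)) ≤ x ^ (-a2 + ε) / 2 := by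
        rw [h9, mul_div_assoc', div_le_iff₀ (Real.rpow_pos_of_pos hx0 _)]
        nlinarith
      have h12 : B * (|M (j + 1)| / m ^ j) ≤ x ^ (-a2 + ε) / 2 := by
        calc B * (|M (j + 1)| / m ^ j) = (B * |M (j + 1)|) * (1 / m ^ j) := by ring
          _ ≤ (B * |M (j + 1)|) * (x ^ (-a2 + ε) / x ^ (1 / 2 : ℝ)) :=
              mul_le_mul_of_nonneg_left h10 (by positivity)
          _ ≤ x ^ (-a2 + ε) / 2 := by
              rw [mul_div_assoc', div_le_iff₀ (Real.rpow_pos_of_pos hx0 _)]
              nlinarith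
      calc (S.card : ℝ) / Fintype.card (H N).Form
          ≤ B * ∑ f ∈ S, (H N).weight f * (H N).sym f := by
            rw [div_le_iff₀ h0']
            linarith
        _ ≤ B * (m * x ^ (-a2 + ε / 4) + |M (j + 1)| / m ^ j) := mul_le_mul_of_nonneg_left h8 hB
        _ = B * (m * x ^ (-a2 + ε / 4)) + B * (|M (j + 1)| / m ^ j) := by ring
        _ ≤ x ^ (-a2 + ε) := by linarith
  have hzero : ∀ A : ℝ, 0 < A → A < 1 / 2 →
      Tendsto (fun N => proportion (H N) ((Real.log N) ^ (-A))) primes (𝓝 0) := by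
    intro A hA hA2
    have hpos : 0 < (1 / 2 - A) ^ 2 / 4 := by
      have : 0 < 1 / 2 - A := by linarith
      positivity
    have t3 : Tendsto (fun N : ℕ => (Real.log N) ^ (-((1 / 2 - A) ^ 2 / 4))) primes (𝓝 0) :=
      (tendsto_rpow_neg_atTop hpos).comp tlog
    refine squeeze_zero' (Eventually.of_forall fun N => ?_) ?_ t3
    · unfold proportion
      positivity
    · filter_upwards [hnat A ((1 / 2 - A) ^ 2 / 4) (by linarith) hA2 hpos] with N h
      have e : -((1 / 2 - A) ^ 2 / 2) + (1 / 2 - A) ^ 2 / 4 = -((1 / 2 - A) ^ 2 / 4) := by ring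
      rwa [e] at h
  refine ⟨fun A ε hA hA2 hε => (hmain A ε hA hA2 hε).and (hnat A ε hA hA2 hε), hzero,
    fun A θ hA hθ hfr => ?_⟩
  by_contra h
  push Not at h
  refine hfr ?_
  filter_upwards [(hzero A hA h).eventually_lt_const hθ] with N h1
  linarith

end Pool.Agent.Results.MP_cc4f83_nt.LargeValuesAreRare
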